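import Mathlib

namespace Pool.Agent.Results.MP_509871_co.NotVT
open SimpleGraph

/-- every maximal clique meets every maximal stable set -/
def CIS {V : Type} (G : SimpleGraph V) : Prop :=
  ∀ C S : Set V, Maximal G.IsClique C → Maximal G.IsIndepSet S → (C ∩ S).Nonempty

/-- all maximal stable sets have the same size -/
def WellCovered {V : Type} (G : SimpleGraph V) : Prop :=
  ∃ k : ℕ, ∀ S : Set V, Maximal G.IsIndepSet S → S.ncard = k

/-- distinct vertices have distinct neighbourhoods -/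
def Irred {V : Type} (G : SimpleGraph V) : Prop :=
  ∀ u v : V, G.neighborSet u = G.neighborSet v → u = v

def VertexTransitive {V : Type} (G : SimpleGraph V) : Prop :=
  ∀ u v : V, ∃ φ : G ≃g G, φ u = v

def Regular {V : Type} (G : SimpleGraph V) : Prop :=
  ∃ d : ℕ, ∀ v : V, (G.neighborSet v).ncard = d

section
variable {α β : Type}

def lex (A : SimpleGraph α) (B : SimpleGraph β) : SimpleGraph (α × β) where
  Adj x y := A.Adj x.1 y.1 ∨ (x.1 = y.1 ∧ B.Adj x.2 y.2)
  symm := ⟨fun _ _ h => h.elim (fun h => Or.inl h.symm) (fun h => Or.inr ⟨h.1.symm, h.2.symm⟩)⟩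
  loopless := ⟨fun _ h => h.elim (fun h => A.irrefl h) (fun h => B.irrefl h.2)⟩

lemma lex_adj (A : SimpleGraph α) (B : SimpleGraph β) (x y : α × β) :
    (lex A B).Adj x y ↔ A.Adj x.1 y.1 ∨ (x.1 = y.1 ∧ B.Adj x.2 y.2) := Iff.rfl

lemma lex_compl (A : SimpleGraph α) (B : SimpleGraph β) : (lex A B)ᶜ = lex Aᶜ Bᶜ := by
  ext ⟨a, b⟩ ⟨a', b'⟩
  simp only [compl_adj, lex_adj, ne_eq, Prod.mk.injEq]
  by_cases h : a = a'
  · subst h; simp
  · simp [h]

lemma proj {A : SimpleGraph α} {B : SimpleGraph β} [Nonempty β] {C : Set (α × β)}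
    (hC : Maximal (lex A B).IsClique C) : Maximal A.IsClique (Prod.fst '' C) := by
  have h1 : A.IsClique (Prod.fst '' C) := by
    rintro _ ⟨x, hx, rfl⟩ _ ⟨y, hy, rfl⟩ hne
    rcases hC.1 hx hy (fun h => hne (by rw [h])) with h | h
    · exact h
    · exact absurd h.1 hne
  refine ⟨h1, fun D hD hle a ha => ?_⟩
  by_contra hn
  obtain ⟨b⟩ := ‹Nonempty β›
  have h2 : (lex A B).IsClique (insert (a, b) C) := by
    refine hC.1.insert fun y hy _ => Or.inl ?_
    exact hD ha (hle ⟨y, hy, rfl⟩) (fun h => hn ⟨y, hy, h.symm⟩)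
  exact hn ⟨(a, b), hC.2 h2 (Set.subset_insert _ _) (Set.mem_insert _ _), rfl⟩

lemma fib {A : SimpleGraph α} {B : SimpleGraph β} {C : Set (α × β)}
    (hC : Maximal (lex A B).IsClique C) {a : α} (ha : a ∈ Prod.fst '' C) :
    Maximal B.IsClique {b | (a, b) ∈ C} := by
  have h1 : B.IsClique {b | (a, b) ∈ C} := by
    intro x hx y hy hne
    rcases hC.1 hx hy (fun h => hne (congrArg Prod.snd h)) with h | h
    · exact absurd h A.irrefl
    · exact h.2
  refine ⟨h1, fun D hD hle b hb => ?_⟩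
  obtain ⟨z, hz, rfl⟩ := ha
  have h2 : (lex A B).IsClique (insert (z.1, b) C) := by
    refine hC.1.insert fun y hy hne => ?_
    by_cases h : z.1 = y.1
    · refine Or.inr ⟨h, hD hb (hle ?_) (fun h' => hne (Prod.ext h h'))⟩
      show (z.1, y.2) ∈ C
      rw [h]; exact hy
    · rcases hC.1 hz hy (fun h' => h (by rw [h'])) with h' | h'
      · exact Or.inl h'
      · exact absurd h'.1 h
  exact hC.2 h2 (Set.subset_insert _ _) (Set.mem_insert _ _)

def Om {V : Type} (G : SimpleGraph V) (k : ℕ) : Prop :=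
  ∀ C : Set V, Maximal G.IsClique C → C.ncard = k

def Cis {V : Type} (G : SimpleGraph V) : Prop :=
  ∀ C S : Set V, Maximal G.IsClique C → Maximal Gᶜ.IsClique S → (C ∩ S).Nonempty

lemma om_lex [Fintype α] [Fintype β] [Nonempty β] {A : SimpleGraph α} {B : SimpleGraph β}
    {k l : ℕ} (hA : Om A k) (hB : Om B l) : Om (lex A B) (k * l) := by
  classical
  intro C hC
  have h1 := hA _ (proj hC)
  rw [Set.ncard_eq_toFinset_card'] at h1 ⊢
  rw [Finset.card_eq_sum_card_fiberwise (f := Prod.fst) (t := (Prod.fst '' C).toFinset)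
    (fun x hx => by simpa using ⟨x.2, by simpa using hx⟩), ← h1, ← smul_eq_mul,
    ← Finset.sum_const]
  refine Finset.sum_congr rfl fun a ha => ?_
  have h2 := hB _ (fib hC (Set.mem_toFinset.1 ha))
  rw [Set.ncard_eq_toFinset_card'] at h2
  rw [← h2]
  symm
  refine Finset.card_bij (fun b _ => (a, b)) ?_ ?_ ?_
  · intro b hb; simpa using hb
  · intro b _ b' _ h; exact congrArg Prod.snd h
  · rintro ⟨a', b⟩ h
    simp only [Finset.mem_filter, Set.mem_toFinset] at h
    obtain ⟨h, rfl⟩ := h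
    exact ⟨b, by simpa using h, rfl⟩

lemma cis_lex [Nonempty β] {A : SimpleGraph α} {B : SimpleGraph β}
    (hA : Cis A) (hB : Cis B) : Cis (lex A B) := by
  intro C S hC hS
  rw [lex_compl] at hS
  obtain ⟨a, h1, h2⟩ := hA _ _ (proj hC) (proj hS)
  obtain ⟨b, h3, h4⟩ := hB _ _ (fib hC h1) (fib hS h2)
  exact ⟨(a, b), h3, h4⟩

end

def mc {n : ℕ} (g : Fin n → Fin n → Bool) (m : ℕ) : Bool :=
  ((List.finRange n).all fun i => !m.testBit i ||
    (List.finRange n).all fun j => !m.testBit j || (i == j || g i j)) &&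
  ((List.finRange n).all fun k => m.testBit k ||
    (List.finRange n).any fun i => m.testBit i && !g k i)

lemma mask {n : ℕ} (G : SimpleGraph (Fin n)) (g : Fin n → Fin n → Bool)
    (hg : ∀ i j, G.Adj i j ↔ g i j = true) (L : List ℕ)
    (hL' : ∀ a < 2 ^ n / 128, ∀ b < 128, mc g (128 * a + b) = true → 128 * a + b ∈ L)
    (h7 : 128 ∣ 2 ^ n) {C : Set (Fin n)} (hC : Maximal G.IsClique C) :
    ∃ m ∈ L, C = {i | m.testBit i.1 = true} := by
  classical
  have hL : ∀ m < 2 ^ n, mc g m = true → m ∈ L := fun m hm h => by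
    have := hL' (m / 128) (Nat.div_lt_div_of_lt_of_dvd h7 hm) (m % 128) (Nat.mod_lt _ (by norm_num))
    rw [Nat.div_add_mod] at this
    exact this h
  let f : Fin n → Bool := fun i => decide (i ∈ C)
  have hb : ∀ i : Fin n, (Nat.ofBits f).testBit i.1 = true ↔ i ∈ C := fun i => by
    rw [Nat.testBit_ofBits_lt f i.1 i.2]; simp [f]
  refine ⟨Nat.ofBits f, hL _ (Nat.ofBits_lt_two_pow f) ?_, by ext i; exact (hb i).symm⟩
  simp only [mc, Bool.and_eq_true, List.all_eq_true, List.any_eq_true, Bool.or_eq_true,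
    Bool.not_eq_true', beq_iff_eq, List.mem_finRange, true_implies, true_and,
    ← Bool.not_eq_true, hb, ← hg]
  refine ⟨fun i => ?_, fun k => ?_⟩
  · by_cases hi : i ∈ C
    · refine Or.inr fun j => ?_
      by_cases hj : j ∈ C
      · by_cases h : i = j
        · exact Or.inr (Or.inl h)
        · exact Or.inr (Or.inr (hC.1 hi hj h))
      · exact Or.inl hj
    · exact Or.inl hi
  · by_contra hn
    push Not at hn
    exact hn.1 (hC.2 (hC.1.insert fun y hy _ => hn.2 y hy) (Set.subset_insert _ _)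
      (Set.mem_insert _ _))

def rB (i j : ℕ) : Bool := !(i == j) && (i / 3 == j / 3 || i % 3 == j % 3)
def zB (i j : ℕ) : Bool :=
  if i < 9 then (decide (j < 9) && rB i j) else (decide (9 ≤ j) && !((i - 9) / 2 == (j - 9) / 2))

def R : SimpleGraph (Fin 9) where
  Adj i j := rB i j = true
  symm := ⟨by decide +kernel⟩
  loopless := ⟨by decide +kernel⟩
def Z : SimpleGraph (Fin 15) where
  Adj i j := zB i j = true
  symm := ⟨by decide +kernel⟩
  loopless := ⟨by decide +kernel⟩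

instance : DecidableRel R.Adj := fun i j => inferInstanceAs (Decidable (rB i j = true))
instance : DecidableRel Z.Adj := fun i j => inferInstanceAs (Decidable (zB i j = true))

def L1 : List ℕ := [7, 56, 73, 146, 292, 448]
def L2 : List ℕ := [84, 98, 140, 161, 266, 273]
def L3 : List ℕ := [7, 56, 73, 146, 292, 448, 10752, 11264, 12800, 13312, 18944, 19456, 20992, 21504]
def L4 : List ℕ := [1620, 1634, 1676, 1697, 1802, 1809, 6228, 6242, 6284, 6305, 6410, 6417, 24660,
  24674, 24716, 24737, 24842, 24849]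

lemma m1 {C} (h : Maximal R.IsClique C) : ∃ m ∈ L1, C = {i | m.testBit i.1 = true} :=
  mask R (fun i j => rB i j) (fun _ _ => Iff.rfl) L1 (by decide +kernel) (by decide) h
lemma m2 {C} (h : Maximal Rᶜ.IsClique C) : ∃ m ∈ L2, C = {i | m.testBit i.1 = true} :=
  mask Rᶜ (fun i j => !(i == j) && !rB i j) (by decide +kernel) L2 (by decide +kernel) (by decide) h
lemma m3 {C} (h : Maximal Z.IsClique C) : ∃ m ∈ L3, C = {i | m.testBit i.1 = true} :=
  mask Z (fun i j => zB i j) (fun _ _ => Iff.rfl) L3 (by decide +kernel) (by decide) h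
lemma m4 {C} (h : Maximal Zᶜ.IsClique C) : ∃ m ∈ L4, C = {i | m.testBit i.1 = true} :=
  mask Zᶜ (fun i j => !(i == j) && !zB i j) (by decide +kernel) L4 (by decide +kernel) (by decide) h

lemma nc {n : ℕ} (p : Fin n → Prop) [DecidablePred p] :
    {i | p i}.ncard = (Finset.univ.filter p).card := by
  rw [← Set.ncard_coe_finset]; congr 1; ext; simp

lemma om_of {n k : ℕ} {G : SimpleGraph (Fin n)} {L : List ℕ}
    (h : ∀ {C}, Maximal G.IsClique C → ∃ m ∈ L, C = {i | m.testBit i.1 = true})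
    (hL : ∀ m ∈ L, (Finset.univ.filter fun i : Fin n => m.testBit i.1 = true).card = k) :
    Om G k := by
  intro C hC
  obtain ⟨m, hm, rfl⟩ := h hC
  rw [nc]; exact hL m hm

lemma cis_of {n : ℕ} {G : SimpleGraph (Fin n)} {L L' : List ℕ}
    (h : ∀ {C}, Maximal G.IsClique C → ∃ m ∈ L, C = {i | m.testBit i.1 = true})
    (h' : ∀ {C}, Maximal Gᶜ.IsClique C → ∃ m ∈ L', C = {i | m.testBit i.1 = true})
    (hL : ∀ m ∈ L, ∀ m' ∈ L', ∃ i : Fin n, m.testBit i.1 = true ∧ m'.testBit i.1 = true) :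
    Cis G := by
  intro C S hC hS
  obtain ⟨m, hm, rfl⟩ := h hC
  obtain ⟨m', hm', rfl⟩ := h' hS
  exact hL m hm m' hm'

abbrev V := (Fin 9 × Fin 15) × Fin 9
def G : SimpleGraph V := lex (lex R Z) R

def gB (x y : V) : Bool :=
  rB x.1.1 y.1.1 || (x.1.1.1 == y.1.1.1 && (zB x.1.2 y.1.2 || (x.1.2.1 == y.1.2.1 && rB x.2 y.2)))

lemma g_adj (x y : V) : G.Adj x y ↔ gB x y = true := by
  obtain ⟨⟨a, z⟩, c⟩ := x
  obtain ⟨⟨a', z'⟩, c'⟩ := y
  simp only [G, lex_adj, gB, R, Z, Bool.or_eq_true, Bool.and_eq_true, beq_iff_eq, Prod.mk.injEq,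
    Fin.val_inj]
  tauto

def cnt (v u : V) : ℕ :=
  ∑ a : Fin 9, ∑ z : Fin 15, ∑ c : Fin 9, if (gB v ((a, z), c) && !gB u ((a, z), c)) = true then 1 else 0

lemma cnt_eq (v u : V) : (G.neighborSet v \ G.neighborSet u).ncard = cnt v u := by
  have : G.neighborSet v \ G.neighborSet u
      = ↑(Finset.univ.filter fun w => (gB v w && !gB u w) = true) := by
    ext w; simp [g_adj]
  rw [this, Set.ncard_coe_finset, Finset.card_filter, Fintype.sum_prod_type, Fintype.sum_prod_type]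
  rfl

lemma c1 : cnt ((0, 9), 0) ((0, 10), 0) = 4 := by decide +kernel
lemma c3 : ∀ c : Fin 9, cnt ((0, 0), 0) ((0, 0), c) ≠ 4 := by decide +kernel
lemma c4 : ∀ (a : Fin 9) (z : Fin 15), (a, z) ≠ (0, 0) → ∃ (a' : Fin 9) (z' : Fin 15),
    ∀ c c' : Fin 9, gB ((0, 0), 0) ((a', z'), c) = true ∧ gB ((a, z), c') ((a', z'), c) = false := by
  decide +kernel

lemma c2 (u : V) : (G.neighborSet ((0, 0), 0) \ G.neighborSet u).ncard ≠ 4 := by
  obtain ⟨⟨a, z⟩, c'⟩ := u
  by_cases h : (a, z) = (0, 0)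
  · rw [h, cnt_eq]; exact c3 c'
  · obtain ⟨a', z', H⟩ := c4 a z h
    have h1 : (fun c : Fin 9 => (((a', z'), c) : V)) '' Set.univ
        ⊆ G.neighborSet ((0, 0), 0) \ G.neighborSet ((a, z), c') := by
      rintro _ ⟨c, -, rfl⟩
      simp [g_adj, (H c c').1, (H c c').2]
    have h2 := Set.ncard_le_ncard h1
    rw [Set.ncard_image_of_injective _ (fun c d h => congrArg Prod.snd h)] at h2
    simp [Set.ncard_univ] at h2
    omega

lemma notVT : ¬ VertexTransitive G := by
  intro h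
  obtain ⟨φ, hφ⟩ := h ((0, 9), 0) ((0, 0), 0)
  apply c2 (φ ((0, 10), 0))
  rw [← c1, ← cnt_eq, ← hφ,
    ← Set.ncard_image_of_injective (G.neighborSet ((0, 9), 0) \ _) φ.injective]
  congr 1
  ext w
  obtain ⟨w, rfl⟩ := φ.surjective w
  rw [φ.injective.mem_set_image]
  simp [φ.map_adj_iff]

lemma indep {W : Type} (H : SimpleGraph W) : H.IsIndepSet = Hᶜ.IsClique := by
  ext S; simp

lemma deg_lex {α β : Type} [Fintype α] [Fintype β] {A : SimpleGraph α} {B : SimpleGraph β}
    {d e : ℕ} (hA : ∀ a, (A.neighborSet a).ncard = d) (hB : ∀ b, (B.neighborSet b).ncard = e)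
    (x : α × β) : ((lex A B).neighborSet x).ncard = d * Fintype.card β + e := by
  have : (lex A B).neighborSet x = (A.neighborSet x.1 ×ˢ Set.univ) ∪
      (fun b => (x.1, b)) '' B.neighborSet x.2 := by
    ext ⟨a, b⟩
    simp [lex_adj]
    tauto
  rw [this, Set.ncard_union_eq, Set.ncard_prod, hA, Set.ncard_univ, Nat.card_eq_fintype_card,
    Set.ncard_image_of_injective _ (fun c d h => congrArg Prod.snd h), hB]
  rw [Set.disjoint_left]
  rintro _ h ⟨b, -, rfl⟩
  exact A.irrefl h.1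

lemma irr_lex {α β : Type} (A : SimpleGraph α) {B : SimpleGraph β} (h1 : Irred B)
    (h2 : ∀ b, ∃ c, B.Adj b c) (h3 : ∀ b, ∃ c, ¬ B.Adj b c) : Irred (lex A B) := by
  rintro ⟨a, b⟩ ⟨a', b'⟩ h
  have h' : ∀ w, (lex A B).Adj (a, b) w ↔ (lex A B).Adj (a', b') w := fun w => by
    rw [← mem_neighborSet, h, mem_neighborSet]
  by_cases ha : a = a'
  · subst ha
    rw [h1 b b' ?_]
    ext c
    simpa [lex_adj] using h' (a, c)
  · exfalso
    obtain ⟨c, hc⟩ := h2 b
    obtain ⟨d, hd⟩ := h3 b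
    have e1 := h' (a, c)
    have e2 := h' (a, d)
    simp only [lex_adj, A.irrefl, hc, hd, Ne.symm ha, and_true, false_and, and_false, or_false,
      false_or, true_iff, false_iff] at e1 e2
    exact e2 e1

lemma conn_lex {α β : Type} [Nonempty α] [Nonempty β] {A : SimpleGraph α} (B : SimpleGraph β)
    (h : ∀ a a', ∃ c, A.Adj a c ∧ A.Adj c a') : (lex A B).Connected := by
  refine ⟨fun x y => ?_⟩
  obtain ⟨c, h1, h2⟩ := h x.1 y.1
  exact (Adj.reachable (v := (c, x.2)) (Or.inl h1)).trans (Adj.reachable (Or.inl h2))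

lemma two_lex {α β : Type} [Nonempty β] {A : SimpleGraph α} (B : SimpleGraph β)
    (h : ∀ a a', ∃ c, A.Adj a c ∧ A.Adj c a') (x y : α × β) :
    ∃ c, (lex A B).Adj x c ∧ (lex A B).Adj c y := by
  obtain ⟨c, h1, h2⟩ := h x.1 y.1
  exact ⟨(c, x.2), Or.inl h1, Or.inl h2⟩

lemma irr_of {n : ℕ} (B : SimpleGraph (Fin n)) (h : ∀ u v, (∀ w, B.Adj u w ↔ B.Adj v w) → u = v) :
    Irred B := fun u v e => h u v fun w => by rw [← mem_neighborSet, e, mem_neighborSet]

theorem result : ∃ (V : Type) (_ : Fintype V) (G : SimpleGraph V),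
    Regular G ∧ CIS G ∧ G.Connected ∧ Gᶜ.Connected ∧ WellCovered G ∧ WellCovered Gᶜ ∧
      Irred G ∧ Irred Gᶜ ∧ ¬ VertexTransitive G := by
  have o1 : Om R 3 := om_of m1 (by decide +kernel)
  have o2 : Om Rᶜ 3 := om_of m2 (by decide +kernel)
  have o3 : Om Z 3 := om_of m3 (by decide +kernel)
  have o4 : Om Zᶜ 5 := om_of m4 (by decide +kernel)
  have s1 : Cis R := cis_of m1 m2 (by decide +kernel)
  have s2 : Cis Z := cis_of m3 m4 (by decide +kernel)
  have d1 : ∀ a, (R.neighborSet a).ncard = 4 := fun a => by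
    rw [neighborSet, nc]; revert a; decide +kernel
  have d2 : ∀ a, (Z.neighborSet a).ncard = 4 := fun a => by
    rw [neighborSet, nc]; revert a; decide +kernel
  have hc : Gᶜ = lex (lex Rᶜ Zᶜ) Rᶜ := by rw [G, lex_compl, lex_compl]
  refine ⟨V, inferInstance, G, ⟨_, deg_lex (deg_lex d1 d2) d1⟩, ?_,
    conn_lex _ (two_lex _ (by decide +kernel)), ?_, ⟨3 * 5 * 3, ?_⟩, ⟨3 * 3 * 3, ?_⟩,
    irr_lex _ (irr_of _ (by decide +kernel)) (by decide +kernel) (by decide +kernel), ?_, notVT⟩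
  · intro C S hC hS
    rw [indep] at hS
    exact cis_lex (cis_lex s1 s2) s1 C S hC hS
  · rw [hc]; exact conn_lex _ (two_lex _ (by decide +kernel))
  · rw [indep, hc]; exact om_lex (om_lex o2 o4) o2
  · rw [indep, compl_compl]; exact om_lex (om_lex o1 o3) o1
  · rw [hc]
    exact irr_lex _ (irr_of _ (by decide +kernel)) (by decide +kernel) (by decide +kernel)

end Pool.Agent.Results.MP_509871_co.NotVT
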